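import Pool.Agent.H63TC.BlGen

/-!
# Talagrand's convolution conjecture for products over small blocks, with the sharp rate

Let `T_ρ` be the noise operator on the cube `{-1, 1}^n`, `0 < ρ < 1`. Talagrand's question is whether
`Pr[T_ρ f ≥ t] = o(1 / t)`, uniformly in `n` and in all `f ≥ 0` with mean `1`; he conjectured the bound
`O(1 / (t √(log t)))`. This bound is proved here for all products `f = ∏ g_b` of arbitrary functions
`g_b ≥ 0` of mean `1` which depend on disjoint sets of at most `m` coordinates, for every fixed `m`,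
uniformly in `n`, in the number of factors and in the functions. For `m = 1` these are the densities
of all product measures (point masses, subcubes, Riesz products `∏ (1 + a_i x_i)`, …).

Proof. `T_ρ f = ∏ G_b` with `G_b = T_ρ g_b`, functions of mean `1` with values in `[1/Λ, Λ]`,
`Λ = (2 / (1 - ρ))^m`. Let `S` be the logarithm of `T_ρ f`, `V = ∑ Var G_b` and `s = log t`. If
`V ≤ s / 2` then the second moment `E e^(2 S) = ∏ (1 + Var G_b) ≤ e^V` is enough:
`Pr[S ≥ s] ≤ e^(-2 s + V) ≤ e^(-3 s / 2)`. If `V > s / 2` let `Q` be the measure with the density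
`e^S`, under which the blocks are independent. Then `Pr[S ≥ s] = ∑_{S ≥ s} Q e^(-S)` is at most
`2 e^(-s) sup_a Q(|S - a| ≤ 1)`, and by the kernel `∫_0^1 (1 - θ) cos(θ x) dθ = (1 - cos x) / x^2` and the
bound `|E_Q e^(i θ S)| ≤ exp(- θ^2 V / (5 Λ^4))` for small `θ` this is at most `C e^(-s) / √V`.
-/

set_option autoImplicit false

namespace Pool.Agent.Results.MP_b7d303_pr.BlockProducts

/-- The noise operator `T_ρ` on functions on the cube (written as `Fin n → Bool`): the mean of `f` at
a point `y` whose coordinates are independent, `y i = x i` with probability `(1 + ρ) / 2`. -/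
noncomputable def noise {n : ℕ} (ρ : ℝ) (f : (Fin n → Bool) → ℝ) (x : Fin n → Bool) : ℝ :=
  ∑ y : Fin n → Bool, (∏ i : Fin n, if x i = y i then (1 + ρ) / 2 else (1 - ρ) / 2) * f y

/-- **Products over blocks.** Let `0 < ρ < 1`, let the coordinates be divided into `k` blocks
`{i | c i = b}` of at most `m` coordinates each, and let `g_b ≥ 0` be functions with mean `1`, such that
`g_b` depends only on the coordinates in the block `b`. Then `f = ∏ b, g_b` has
`Pr[T_ρ f ≥ t] ≤ C / (t √(log t))` for all `t > 1`, with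
`C = 26 (2 / (1 - ρ))^(2 m) (1 + 2 m log (2 / (1 - ρ)))`. -/
theorem result {ρ : ℝ} (h0 : 0 < ρ) (h1 : ρ < 1) {n k m : ℕ} (c : Fin n → Fin k)
    (hc : ∀ b, (Finset.univ.filter fun i => c i = b).card ≤ m)
    (g : Fin k → (Fin n → Bool) → ℝ) (hd : ∀ b x y, (∀ i, c i = b → x i = y i) → g b x = g b y)
    (hg : ∀ b x, 0 ≤ g b x) (hm : ∀ b, ∑ x, g b x = 2 ^ n) (t : ℝ) (ht : 1 < t) :
    ((Finset.univ.filter fun x : Fin n → Bool =>
      t ≤ noise ρ (fun y => ∏ b, g b y) x).card : ℝ) / 2 ^ n ≤
      26 * (2 / (1 - ρ)) ^ (2 * m) * (1 + 2 * m * Real.log (2 / (1 - ρ))) /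
        (t * Real.sqrt (Real.log t)) :=
  H63TC.Bl.general h0 h1 c hc g hd hg hm t ht

end Pool.Agent.Results.MP_b7d303_pr.BlockProducts
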