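import Pool.Agent.H63TC.DmMain
import Pool.Agent.H39Dm.Mix2
import Pool.Agent.H63TC.WiC

/-!
# Talagrand's convolution conjecture: the critical dimension

Let `T_ρ` be the noise operator on the cube `{-1, 1}^n`, `0 < ρ < 1`. Talagrand's question is whether
`Pr[T_ρ f ≥ t] = o(1 / t)`, uniformly in `n` and in all `f ≥ 0` with mean `1`; he conjectured the bound
`O(1 / (t √(log t)))`. Let `κ = ((1 + ρ) log (1 + ρ) + (1 - ρ) log (1 - ρ)) / 2` (the capacity, in nats,
of the binary symmetric channel that flips a bit with probability `(1 - ρ) / 2`) and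
`L = log ((1 + ρ) / (1 - ρ))`.

(1) For ALL `n`, all `f` which are mixtures of uniform densities of subcubes of codimension at most `m`
and all `t` with `log t ≥ m κ`: `Pr[T_ρ f ≥ t] ≤ (1 / t) exp (-2 (log t - m κ)² / (m L²))`.
(2) Every `f ≥ 0` with mean `1` which depends only on the coordinates in a set `S` is such a mixture with
`m = |S|`. So (1) holds for ALL `f` with `m = n`: for all `f` in dimension `n ≤ (1 - ε) log t / κ` the
probability is at most `t^(-1-c)`, and Talagrand's bound holds for all `f` in dimension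
`n ≤ (log t - C √(log t log log t)) / κ`.

(3) This is the true threshold: for every `n` there is a `t` with `|log t - n κ| ≤ L √(n (1 - ρ²))` and
`Pr[T_ρ f ≥ t] ≥ 3 / (4 t (2 √(n (1 - ρ²)) + 1))` if `f` is a point mass.

(4) Talagrand's bound, with the sharp rate, for ALL `f` and beyond the critical dimension: there are
`η > 0` and `C`, depending only on `ρ`, with `Pr[T_ρ f ≥ t] ≤ C / (t √n)` for all `n ≥ 1`, all `f` and all
`t` with `log t ≥ n (κ - η)`. (As `T_ρ f ≤ (1 + ρ)^n`, this is at most `C' / (t √(log t))`.)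

Proof. (1) `T_ρ f` is a convex combination of the functions `T_ρ g`, `g` the density of a subcube. By
Jensen's inequality the mean of `(T_ρ f)^(1 + s)` is at most
`(((1 + ρ)^(1 + s) + (1 - ρ)^(1 + s)) / 2)^m`, and this is at most `exp (m (κ s + s² L² / 8))` by
Hoeffding's lemma; take `s = 4 (log t - m κ) / (m L²)`.
(3) If `K` is binomial with parameters `n` and `(1 - ρ) / 2` then by Chebyshev's inequality some `k` within
`√(n (1 - ρ²))` of the mean has probability at least `3 / (4 (2 √(n (1 - ρ²)) + 1))`, and for the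
sphere of radius `k` around the point, on which `T_ρ f = t = (1 + ρ)^(n - k) (1 - ρ)^k`, this probability
is `t` times the measure of the sphere.
(4) Let `W = log T_ρ f`, `q = (1 - ρ) / 2`, and let `x` be a noisy copy of `y`, `N = d(x, y)`. For every `G` with
values in `[0, 2]`, the mean of `∑ (G(x^i) - G(x))`, over the bits `i` of `x` which agree with `y`, is the
mean of `G(x) (N - n q) / q`, so at least `-2 √(n (1 - q) / q)`. Take `G = g(W)`, where `g` is increasing and
bounded with derivative `exp(-|u - w|)`. If the posterior weight (under `T_ρ f`) of the points that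
differ from `y` in the bit `i` is at most `(1 - ρ) / 4` then the change of the bit `i` decreases `W` by
`log (1 + ρ)` at least. So if few bits are exceptional then the sum is at most `-c n` for `x` in the
window `w ≤ W < w + log (1 + ρ)`, and the window has probability `O(1 / √n)`. If many bits are
exceptional then the posterior weight of the points far from `y` is not small; by the overlaps
`∑ x, √(K(x, y) K(x, z)) = (1 - ρ²)^(d(y, z) / 2)` and Chernoff's bound for `K(x, y)` this has an
exponentially small probability (under the size-biased law) as long as `W ≥ n (κ - 2 η)`. Finally sum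
over the windows `w = log t + m log (1 + ρ)`.
-/

set_option autoImplicit false

namespace Pool.Agent.Results.MP_b7d303_pr.CriticalDimension

/-- The noise operator `T_ρ` on functions on the cube (written as `Fin n → Bool`): the mean of `f` at
a point `y` whose coordinates are independent, `y i = x i` with probability `(1 + ρ) / 2`. -/
noncomputable def noise {n : ℕ} (ρ : ℝ) (f : (Fin n → Bool) → ℝ) (x : Fin n → Bool) : ℝ :=
  ∑ y : Fin n → Bool, (∏ i : Fin n, if x i = y i then (1 + ρ) / 2 else (1 - ρ) / 2) * f y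

/-- The capacity (in nats) of the binary symmetric channel with crossover probability
`(1 - ρ) / 2`. -/
noncomputable def capacity (ρ : ℝ) : ℝ :=
  ((1 + ρ) * Real.log (1 + ρ) + (1 - ρ) * Real.log (1 - ρ)) / 2

/-- `f` is a mixture (finite convex combination) of uniform densities of subcubes of codimension at
most `m`: the `j`-th subcube is the set of all `y` with `y i = z j i` for `i ∈ S j`, and its density is
`2 ^ #(S j)` on it and `0` outside. -/
def IsMixture {n : ℕ} (m : ℕ) (f : (Fin n → Bool) → ℝ) : Prop :=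
  ∃ (N : ℕ) (a : Fin N → ℝ) (S : Fin N → Finset (Fin n)) (z : Fin N → Fin n → Bool),
    (∀ j, 0 ≤ a j) ∧ ∑ j, a j = 1 ∧ (∀ j, (S j).card ≤ m) ∧
      ∀ y, f y = ∑ j, a j * (if ∀ i ∈ S j, y i = z j i then 2 ^ (S j).card else 0)

/-- **The critical dimension in Talagrand's convolution conjecture.** (1) All mixtures of subcube
densities of codimension `m ≤ log t / κ`. (2) All functions of mean one which depend only on the
coordinates in `S` are such mixtures with `m = #S`. (3) Point masses show that the level `exp (n κ)`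
is critical in dimension `n`. (4) Talagrand's bound with the sharp rate for all functions and all
`t ≥ exp (n (κ - η))`. -/
theorem result {ρ : ℝ} (h0 : 0 < ρ) (h1 : ρ < 1) :
    (∀ (n m : ℕ) (f : (Fin n → Bool) → ℝ), IsMixture m f → ∀ t : ℝ, 0 < t →
      m * capacity ρ ≤ Real.log t →
      ((Finset.univ.filter fun x : Fin n → Bool => t ≤ noise ρ f x).card : ℝ) / 2 ^ n ≤
        1 / t * Real.exp (-(2 * (Real.log t - m * capacity ρ) ^ 2 /
          (m * (Real.log ((1 + ρ) / (1 - ρ))) ^ 2)))) ∧
    (∀ (n : ℕ) (S : Finset (Fin n)) (f : (Fin n → Bool) → ℝ), (∀ x, 0 ≤ f x) →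
      ∑ x, f x = 2 ^ n → (∀ x y, (∀ i ∈ S, x i = y i) → f x = f y) → IsMixture S.card f) ∧
    (∀ n : ℕ, ∃ t : ℝ, 0 < t ∧ (Real.log t - n * capacity ρ) ^ 2 ≤
        n * (1 - ρ ^ 2) * (Real.log ((1 + ρ) / (1 - ρ))) ^ 2 ∧
      ∀ u : Fin n → Bool, 3 / (4 * t * (2 * Real.sqrt (n * (1 - ρ ^ 2)) + 1)) ≤
        ((Finset.univ.filter fun x : Fin n → Bool =>
          t ≤ noise ρ (fun y => if y = u then 2 ^ n else 0) x).card : ℝ) / 2 ^ n) ∧
    (∃ η : ℝ, 0 < η ∧ ∃ C : ℝ, 0 < C ∧ ∀ n : ℕ, 0 < n → ∀ f : (Fin n → Bool) → ℝ,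
      (∀ x, 0 ≤ f x) → ∑ x, f x = 2 ^ n → ∀ t : ℝ, 0 < t →
      n * (capacity ρ - η) ≤ Real.log t →
      ((Finset.univ.filter fun x : Fin n → Bool => t ≤ noise ρ f x).card : ℝ) / 2 ^ n ≤
        C / (t * Real.sqrt n)) := by
  refine ⟨?_, ?_, fun n => H63TC.Dm.sharp h0 h1 n, ?_⟩
  · rintro n m f ⟨N, a, S, z, ha, hs, hS, hf⟩ t ht hk
    have h := H63TC.Dm39.upper_mix h0 h1 a ha hs S z m hS t ht hk
    have e : f = fun y => ∑ j, a j * (if ∀ i ∈ S j, y i = z j i then 2 ^ (S j).card else 0) :=
      funext hf
    have hn : ∀ x, noise ρ f x = H63TC.noise ρ (fun y => ∑ j, a j *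
        (if ∀ i ∈ S j, y i = z j i then 2 ^ (S j).card else 0)) x := by
      intro x
      rw [e]
      unfold noise H63TC.noise H63TC.wt
      rfl
    simp only [hn]
    have hc : capacity ρ = ((1 + ρ) * Real.log (1 + ρ) + (1 - ρ) * Real.log (1 - ρ)) / 2 := rfl
    rw [hc]
    convert h using 4
  · intro n S f hf hm hfS
    have h2 : (0 : ℝ) < 2 ^ n := by positivity
    let E := Fintype.equivFin (Fin n → Bool)
    refine ⟨Fintype.card (Fin n → Bool), fun j => f (E.symm j) / 2 ^ n, fun _ => S,
      fun j => E.symm j, fun j => div_nonneg (hf _) h2.le, ?_, fun _ => le_rfl, ?_⟩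
    · rw [E.symm.sum_comp (fun z => f z / 2 ^ n), ← Finset.sum_div, hm, div_self h2.ne']
    · intro y
      rw [H63TC.Dm39.junta S f hfS y]
      exact (E.symm.sum_comp (fun z => f z / 2 ^ n *
        (if ∀ i ∈ S, y i = z i then (2 : ℝ) ^ S.card else 0))).symm
  · obtain ⟨η, hη, C, hC, H⟩ := H63TC.Wi.beyond h0 h1
    refine ⟨η, hη, C, hC, fun n hn f hf hm t ht hlog => ?_⟩
    have hn' : ∀ x : Fin n → Bool, noise ρ f x = H63TC.noise ρ f x := fun _ => rfl
    simp only [hn']
    convert H n hn f hf hm t ht hlog using 4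

end Pool.Agent.Results.MP_b7d303_pr.CriticalDimension
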