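import Pool.Agent.H63TC.Main
import Pool.Agent.H63TC.AC

/-!
# Talagrand's convolution conjecture for radial functions, with the sharp rate

Let `T_ρ` be the noise operator on the cube `{-1, 1}^n`, `0 < ρ < 1`. Talagrand's question is whether
`Pr[T_ρ f ≥ t] = o(1 / t)`, uniformly in `n` and in all `f ≥ 0` with mean `1`; he conjectured the bound
`O(1 / (t √(log t)))`.

(1) This bound is proved for all radial functions, i.e. all `f` such that `f x` depends only on the
Hamming distance of `x` and a point `u` (normalised Hamming balls, spheres, annuli, point masses and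
all mixtures of these with the same centre), uniformly in `n`, with explicit constants:
`Pr[T_ρ f ≥ t] ≤ 16 / (t √((1 - ρ) log t))` for all `t ≥ 4 / (1 - ρ)`.

(2) For ALL `f`: on every antichain `S` of the cube (oriented by any point `u`), e.g. on every Hamming
sphere and on every strip `a ≤ ∑ θ_i x_i < a + 2 min |θ_i|`, the probability that `x ∈ S` and
`T_ρ f x ≥ t` is at most `1 / (t √((1 - ρ) (n + 1)))`.

Proof. A noisy copy of `y` is obtained by replacing the bits of `y` in a random set `R` by uniform
bits (each `i` is in `R` with probability `1 - ρ`). For fixed `R` the probability of an antichain is at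
most `C(|R|, |R| / 2) / 2^|R| ≤ 1 / √(|R| + 1)` (Sperner), and the mean of `1 / (|R| + 1)` is at most
`1 / ((1 - ρ) (n + 1))`. So every antichain has probability at most `q = 1 / √((1 - ρ) (n + 1))`, from every
`y`, and `t |S ∩ A| ≤ ∑_{x ∈ S} T_ρ f x ≤ 2^n q` for `A = {T_ρ f ≥ t}`: this is (2). If `f` is radial then `A` is
a union of spheres, each of which has measure at most `q / t` by (2). By the lower bound for binomial
coefficients they are at distance at least `c √(n log t)` from the middle, so by the geometric series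
the measure of `A` is at most `(q / t) C n / √(n log t)`, and this is (1).
-/

set_option autoImplicit false

namespace Pool.Agent.Results.MP_b7d303_pr.RadialFunctions

/-- The noise operator `T_ρ` on functions on the cube (written as `Fin n → Bool`): the mean of `f` at
a point `y` whose coordinates are independent, `y i = x i` with probability `(1 + ρ) / 2`. -/
noncomputable def noise {n : ℕ} (ρ : ℝ) (f : (Fin n → Bool) → ℝ) (x : Fin n → Bool) : ℝ :=
  ∑ y : Fin n → Bool, (∏ i : Fin n, if x i = y i then (1 + ρ) / 2 else (1 - ρ) / 2) * f y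

/-- **Radial functions and antichains.** Let `f ≥ 0` have mean `1`, and let `u` be a point of the cube.
(1) If `f` is radial about `u` then `Pr[T_ρ f ≥ t] ≤ 16 / (t √((1 - ρ) log t))` for `t ≥ 4 / (1 - ρ)`.
(2) Without this condition, `Pr[x ∈ S, T_ρ f x ≥ t] ≤ 1 / (t √((1 - ρ) (n + 1)))` for every antichain `S`
(with respect to the inclusion of the sets `{i | x i ≠ u i}`). -/
theorem result {ρ : ℝ} (h0 : 0 < ρ) (h1 : ρ < 1) {n : ℕ} (f : (Fin n → Bool) → ℝ)
    (hf : ∀ x, 0 ≤ f x) (hm : ∑ x, f x = 2 ^ n) (u : Fin n → Bool) :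
    ((∀ x y, hammingDist x u = hammingDist y u → f x = f y) → ∀ t : ℝ, 4 / (1 - ρ) ≤ t →
      ((Finset.univ.filter fun x : Fin n → Bool => t ≤ noise ρ f x).card : ℝ) / 2 ^ n ≤
        16 / (t * Real.sqrt ((1 - ρ) * Real.log t))) ∧
    (∀ S : Finset (Fin n → Bool),
      (∀ x ∈ S, ∀ y ∈ S, (∀ i, x i ≠ u i → y i ≠ u i) → x = y) → ∀ t : ℝ, 0 < t →
      ((S.filter fun x => t ≤ noise ρ f x).card : ℝ) / 2 ^ n ≤
        1 / (t * Real.sqrt ((1 - ρ) * (n + 1)))) := by
  refine ⟨fun hr t ht => H63TC.radial h0 h1 f hf hm u hr t ht, fun S hS t ht => ?_⟩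
  have h := H63TC.antichain_le h0 h1 f hf hm t u S hS
  have hq : 0 < Real.sqrt ((1 - ρ) * (n + 1)) := by
    apply Real.sqrt_pos.mpr
    have : 0 < 1 - ρ := by linarith
    positivity
  rw [div_le_div_iff₀ (by positivity) (by positivity)]
  rw [le_div_iff₀ hq] at h
  have h2 : ((S.filter fun x => t ≤ noise ρ f x).card : ℝ) =
      ((S.filter fun x => t ≤ H63TC.noise ρ f x).card : ℝ) := rfl
  rw [h2]
  linarith

end Pool.Agent.Results.MP_b7d303_pr.RadialFunctions
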