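import Pool.Agent.H63TC.CdB

/-!
# Talagrand's convolution conjecture: the maximal form for all functions, and codes

Let `T_ρ` be the noise operator on the cube `{-1, 1}^n`, `0 < ρ < 1`, with kernel `K(x, y)` (the
probability that the noisy copy of `x` is `y`), so `T_ρ f x = ∑ y, K(x, y) f(y)`. Talagrand's question is
whether `Pr[T_ρ f ≥ t] = o(1 / t)`, uniformly in `n` and in all `f ≥ 0` with mean `1`; he conjectured
the bound `O(1 / (t √(log t)))`.

(1) For ALL `f` this bound holds with the sum replaced by the maximum: the probability that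
`max_y K(x, y) f(y) ≥ t` is at most `16 / (t √((1 - ρ) log t))`, for `t ≥ 4 / (1 - ρ)`.

(2) If `f = ∑ j, g j` with `g j ≥ 0` radial about its own centre `u j`, then for `t ≥ 8 / (1 - ρ)`
`Pr[T_ρ f ≥ t] ≤ (1 / t) (32 / √((1 - ρ) log (t / 2)) + ∑_{i ≠ j} E √(T_ρ (g i) T_ρ (g j)))`.

(3) Let `f` be carried by the balls of radius `r` around the points of a code `A`, and suppose that
`∑ (1 - ρ²)^(d(u, v) / 2) ≤ η` for all `u` in `A`, where the sum is over the `v ≠ u` in `A`. Then
`Pr[T_ρ f ≥ t] ≤ (C / t) (32 / √((1 - ρ) log (t / (2 C))) + η)` with `C = ((1 + ρ) / (1 - ρ))^r`, for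
`t ≥ 8 C / (1 - ρ)`. So Talagrand's bound holds for all functions on such balls (for `r = 0`: on the
code) if `A` has minimum distance `D` and `|A| (1 - ρ²)^(D / 2) ≤ 1 / √(log t)`.

Proof. By the theorem for radial functions (`RadialFunctions`), `Pr[T_ρ (g j) ≥ s]` is at most
`a j * 16 / (s √((1 - ρ) log s))` with `a j = E (g j)`, and the `a j` sum up to `1`: this gives (1) and the
bound for the maximum in (2). If `H = ∑ h j ≥ t` and all `h j < t / 2`, then for the largest `h m` we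
have `H / 2 < ∑_{j ≠ m} h j ≤ ∑_{j ≠ m} √(h m h j)`, so `H ≤ ∑_{i ≠ j} √(h i h j)`, and Markov's
inequality gives (2). For (3) note that `∑ x, √(K(x, y) K(x, z)) = (1 - ρ²)^(d(y, z) / 2)`, and that the
masses may be moved to the centres of the balls, since `K(x, y) ≤ C K(x, u)` if `d(y, u) ≤ r`.
-/

set_option autoImplicit false

namespace Pool.Agent.Results.MP_b7d303_pr.SeparatedCodes

/-- The noise kernel: the probability that the noisy copy of `x` is `y`, if the bits of `x` are kept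
independently with probability `(1 + ρ) / 2`. -/
noncomputable def kernel {n : ℕ} (ρ : ℝ) (x y : Fin n → Bool) : ℝ :=
  ∏ i : Fin n, if x i = y i then (1 + ρ) / 2 else (1 - ρ) / 2

/-- The noise operator `T_ρ` on functions on the cube (written as `Fin n → Bool`). -/
noncomputable def noise {n : ℕ} (ρ : ℝ) (f : (Fin n → Bool) → ℝ) (x : Fin n → Bool) : ℝ :=
  ∑ y : Fin n → Bool, kernel ρ x y * f y

/-- **The maximal form of Talagrand's convolution conjecture for all functions, and the conjecture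
for sums of radial functions with small overlap and for functions on separated balls.** -/
theorem result {ρ : ℝ} (h0 : 0 < ρ) (h1 : ρ < 1) {n : ℕ} :
    (∀ f : (Fin n → Bool) → ℝ, (∀ x, 0 ≤ f x) → ∑ x, f x = 2 ^ n → ∀ t : ℝ, 4 / (1 - ρ) ≤ t →
      ((Finset.univ.filter fun x : Fin n → Bool => ∃ y, t ≤ kernel ρ x y * f y).card : ℝ) / 2 ^ n ≤
        16 / (t * Real.sqrt ((1 - ρ) * Real.log t))) ∧
    (∀ (N : ℕ) (g : Fin N → (Fin n → Bool) → ℝ) (u : Fin N → Fin n → Bool),
      (∀ j x, 0 ≤ g j x) →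
      (∀ j x y, hammingDist x (u j) = hammingDist y (u j) → g j x = g j y) →
      ∑ j, ∑ x, g j x = 2 ^ n → ∀ t : ℝ, 8 / (1 - ρ) ≤ t →
      ((Finset.univ.filter fun x : Fin n → Bool =>
        t ≤ noise ρ (fun z => ∑ j, g j z) x).card : ℝ) / 2 ^ n ≤
        (1 / t) * (32 / Real.sqrt ((1 - ρ) * Real.log (t / 2)) +
          (∑ i, ∑ j ∈ Finset.univ.erase i, ∑ x,
            Real.sqrt (noise ρ (g i) x * noise ρ (g j) x)) / 2 ^ n)) ∧
    (∀ f : (Fin n → Bool) → ℝ, (∀ x, 0 ≤ f x) → ∑ x, f x = 2 ^ n →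
      ∀ (A : Finset (Fin n → Bool)) (r : ℕ), (∀ y, f y ≠ 0 → ∃ u ∈ A, hammingDist y u ≤ r) →
      ∀ η : ℝ, (∀ u ∈ A, ∑ v ∈ A.erase u, Real.sqrt (1 - ρ ^ 2) ^ hammingDist u v ≤ η) →
      ∀ t : ℝ, 8 * ((1 + ρ) / (1 - ρ)) ^ r / (1 - ρ) ≤ t →
      ((Finset.univ.filter fun x : Fin n → Bool => t ≤ noise ρ f x).card : ℝ) / 2 ^ n ≤
        ((1 + ρ) / (1 - ρ)) ^ r / t * (32 / Real.sqrt ((1 - ρ) *
          Real.log (t / (2 * ((1 + ρ) / (1 - ρ)) ^ r))) + η)) := by
  have hn : ∀ (f : (Fin n → Bool) → ℝ) (x : Fin n → Bool), noise ρ f x = H63TC.noise ρ f x :=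
    fun _ _ => rfl
  have hk : ∀ x y : Fin n → Bool, kernel ρ x y = H63TC.wt ρ x y := fun _ _ => rfl
  refine ⟨fun f hf hm t ht => ?_, fun N g u hg hr hs t ht => ?_, fun f hf hm A r hA η hη t ht => ?_⟩
  · have h := H63TC.Cd.max_all h0 h1 f hf hm t ht
    simp only [hk]
    convert h using 4
  · have h := H63TC.Cd.sum_radial h0 h1 g u hg hr hs t ht
    simp only [hn]
    convert h using 4
    exact Finset.sum_congr rfl fun i _ => Finset.sum_congr (by ext z; simp) fun j _ => rfl
  · have h := H63TC.Cd.balls h0 h1 f hf hm A r hA η (fun u hu => by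
      refine le_trans (le_of_eq ?_) (hη u hu)
      exact Finset.sum_congr (by ext z; simp) fun j _ => rfl) t ht
    simp only [hn]
    convert h using 4

end Pool.Agent.Results.MP_b7d303_pr.SeparatedCodes
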